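import Pool.Agent.MT100B.Stmts
import Pool.Agent.Helper47_MT.Eva
import Pool.Agent.Helper65_MT100.Val

/-!
# ANA: the fundamental matrix `H (1/w) exp (- log w N)` of a system, for `w > λ`

Generic version: `H` is any matrix of power series with the differential equation, the growth and
the pairing of the hypergeometric systems.
-/

set_option autoImplicit false

namespace Pool.Agent.MT100B.H75

open Matrix Polynomial Pool.Agent.MT100 Pool.Agent.Helper65MT100

theorem e3 : E3 := fun f g x hf hg => Pool.Agent.MT100.H47.eva3 f g x hf hg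

/-- growth of the coefficients -/
def Gr (lam : ℚ) (f : PowerSeries ℚ) : Prop :=
  ∃ C : ℕ, ∀ k, |PowerSeries.coeff k f| ≤ (C : ℚ) * ((k : ℚ) + 1) ^ C * lam ^ k

theorem ab_gr {lam : ℚ} (hl : 0 < lam) {f : PowerSeries ℚ} (hf : Gr lam f) {x : ℝ} (hx : 0 < x)
    (h1 : (lam : ℝ) * x < 1) : Ab f x := by
  obtain ⟨C, hC⟩ := hf
  have hlam : (0 : ℝ) < (lam : ℝ) := by exact_mod_cast hl
  have hr : 0 < (lam : ℝ) * x := mul_pos hlam hx
  have h2 : Summable fun n : ℕ => (n : ℝ) ^ C * ((lam : ℝ) * x) ^ n :=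
    summable_pow_mul_geometric_of_norm_lt_one C (by
      rw [Real.norm_eq_abs, abs_of_pos hr]; exact h1)
  have h3 : Summable fun n : ℕ => ((n : ℝ) + 1) ^ C * ((lam : ℝ) * x) ^ (n + 1) := by
    have := (summable_nat_add_iff 1).mpr h2
    refine this.congr fun n => ?_
    push_cast
    ring
  have h4 := h3.mul_left ((C : ℝ) * ((lam : ℝ) * x)⁻¹)
  unfold Pool.Agent.Helper65MT100.Ab
  refine Summable.of_nonneg_of_le (fun n => by positivity) (fun n => ?_) h4
  have h5 : |((PowerSeries.coeff n f : ℚ) : ℝ)| ≤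
      (C : ℝ) * ((n : ℝ) + 1) ^ C * (lam : ℝ) ^ n := by
    have := hC n
    have h6 : ((|PowerSeries.coeff n f| : ℚ) : ℝ) ≤
        (((C : ℚ) * ((n : ℚ) + 1) ^ C * lam ^ n : ℚ) : ℝ) := by exact_mod_cast this
    push_cast at h6
    exact h6
  rw [abs_of_pos hx]
  calc |((PowerSeries.coeff n f : ℚ) : ℝ)| * x ^ n
      ≤ ((C : ℝ) * ((n : ℝ) + 1) ^ C * (lam : ℝ) ^ n) * x ^ n :=
        mul_le_mul_of_nonneg_right h5 (pow_nonneg hx.le n)
    _ = (C : ℝ) * ((lam : ℝ) * x)⁻¹ * (((n : ℝ) + 1) ^ C * ((lam : ℝ) * x) ^ (n + 1)) := by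
        rw [pow_succ, mul_pow]
        field_simp

theorem coeff_dv (f : PowerSeries ℚ) (k : ℕ) :
    PowerSeries.coeff k (dv f) = PowerSeries.coeff (k + 1) f * ((k : ℚ) + 1) :=
  PowerSeries.coeff_derivative f k

theorem gr_dv {lam : ℚ} (hl : 0 < lam) {f : PowerSeries ℚ} (hf : Gr lam f) : Gr lam (dv f) := by
  obtain ⟨C, hC⟩ := hf
  obtain ⟨L, hL⟩ := exists_nat_ge lam
  refine ⟨C * 2 ^ C * L + C + 1, fun k => ?_⟩
  have hk : (0 : ℚ) < (k : ℚ) + 1 := by positivity
  rw [coeff_dv, abs_mul, abs_of_pos hk]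
  have h1 := hC (k + 1)
  have h2 : ((k + 1 : ℕ) : ℚ) + 1 ≤ 2 * ((k : ℚ) + 1) := by
    push_cast
    have : (0 : ℚ) ≤ (k : ℚ) := Nat.cast_nonneg k
    linarith
  have h3 : (((k + 1 : ℕ) : ℚ) + 1) ^ C ≤ 2 ^ C * ((k : ℚ) + 1) ^ C := by
    rw [← mul_pow]
    exact pow_le_pow_left₀ (by positivity) h2 C
  have h4 : ((k : ℚ) + 1) ^ (C + 1) ≤ ((k : ℚ) + 1) ^ (C * 2 ^ C * L + C + 1) :=
    pow_le_pow_right₀ (by
      have : (0 : ℚ) ≤ (k : ℚ) := Nat.cast_nonneg k
      linarith) (by omega)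
  calc |PowerSeries.coeff (k + 1) f| * ((k : ℚ) + 1)
      ≤ ((C : ℚ) * (((k + 1 : ℕ) : ℚ) + 1) ^ C * lam ^ (k + 1)) * ((k : ℚ) + 1) :=
        mul_le_mul_of_nonneg_right h1 hk.le
    _ ≤ ((C : ℚ) * (2 ^ C * ((k : ℚ) + 1) ^ C) * (lam ^ k * L)) * ((k : ℚ) + 1) := by
        rw [pow_succ lam]
        gcongr
    _ = ((C * 2 ^ C * L : ℕ) : ℚ) * ((k : ℚ) + 1) ^ (C + 1) * lam ^ k := by
        push_cast
        ring
    _ ≤ ((C * 2 ^ C * L + C + 1 : ℕ) : ℚ) * ((k : ℚ) + 1) ^ (C * 2 ^ C * L + C + 1) * lam ^ k := by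
        gcongr
        omega

/-- the derivative of the value -/
theorem hasDerivAt_ev {lam : ℚ} (hl : 0 < lam) {f : PowerSeries ℚ} (hf : Gr lam f) {y : ℝ}
    (hy : 0 < y) (h1 : (lam : ℝ) * y < 1) : HasDerivAt (ev f) (ev (dv f) y) y := by
  have hlam : (0 : ℝ) < (lam : ℝ) := by exact_mod_cast hl
  obtain ⟨ρ, hyρ, hρ⟩ : ∃ ρ : ℝ, y < ρ ∧ (lam : ℝ) * ρ < 1 := by
    have h2 : y < 1 / (lam : ℝ) := by
      rw [lt_div_iff₀ hlam]
      linarith [mul_comm (lam : ℝ) y]
    obtain ⟨ρ, h3, h4⟩ := exists_between h2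
    refine ⟨ρ, h3, ?_⟩
    rw [lt_div_iff₀ hlam] at h4
    linarith [mul_comm (lam : ℝ) ρ]
  have hρ0 : 0 < ρ := hy.trans hyρ
  have hd := ab_gr hl (gr_dv hl hf) hρ0 hρ
  unfold Pool.Agent.Helper65MT100.Ab at hd
  have hu : Summable fun n : ℕ => |((PowerSeries.coeff n f : ℚ) : ℝ)| * ((n : ℝ) * ρ ^ (n - 1)) := by
    rw [← summable_nat_add_iff 1]
    refine hd.congr fun k => ?_
    rw [coeff_dv, Rat.cast_mul, abs_mul, abs_of_pos hρ0]
    have : (((k : ℚ) + 1 : ℚ) : ℝ) = (k : ℝ) + 1 := by push_cast; ring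
    rw [this, abs_of_pos (by positivity : (0 : ℝ) < (k : ℝ) + 1), Nat.add_sub_cancel]
    push_cast
    ring
  have key := hasDerivAt_tsum_of_isPreconnected (𝕜 := ℝ) hu (t := Set.Ioo (-ρ) ρ) isOpen_Ioo
    isPreconnected_Ioo
    (g := fun (n : ℕ) (y : ℝ) => ((PowerSeries.coeff n f : ℚ) : ℝ) * y ^ n)
    (g' := fun (n : ℕ) (y : ℝ) => ((PowerSeries.coeff n f : ℚ) : ℝ) * ((n : ℝ) * y ^ (n - 1)))
    (fun n z _ => (hasDerivAt_pow n z).const_mul _)
    (fun n z hz => by
      rw [Real.norm_eq_abs, abs_mul, abs_mul, abs_pow, Nat.abs_cast]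
      have : |z| ≤ ρ := (abs_lt.mpr hz).le
      gcongr)
    (y₀ := y) ⟨by linarith, hyρ⟩ ((ab_gr hl hf hy h1).summable) (y := y) ⟨by linarith, hyρ⟩
  have h5 : ∑' n : ℕ, ((PowerSeries.coeff n f : ℚ) : ℝ) * ((n : ℝ) * y ^ (n - 1)) =
      ev (dv f) y := by
    unfold ev
    have hs : Summable fun n : ℕ => ((PowerSeries.coeff n f : ℚ) : ℝ) * ((n : ℝ) * y ^ (n - 1)) := by
      rw [← summable_nat_add_iff 1]
      refine ((ab_gr hl (gr_dv hl hf) hy h1).summable).congr fun k => ?_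
      rw [coeff_dv, Nat.add_sub_cancel]
      push_cast
      ring
    rw [hs.tsum_eq_zero_add]
    simp only [Nat.cast_zero, zero_mul, mul_zero, zero_add, Nat.add_sub_cancel]
    refine tsum_congr fun k => ?_
    rw [coeff_dv]
    push_cast
    ring
  rw [← h5]
  exact key

/-- the shift over the reals -/
def NR (r : ℕ) : Matrix (Fin r) (Fin r) ℝ := (Nsh r).map (fun x => (x : ℝ))

theorem NR_apply (r : ℕ) (l i : Fin r) : NR r l i = if (l : ℕ) + 1 = i then 1 else 0 := by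
  have h : NR r l i = ((Nsh r l i : ℤ) : ℝ) := rfl
  rw [h]
  unfold Nsh
  split_ifs <;> simp

theorem NR_mul_en {r : ℕ} (x : ℝ) (l i : Fin r) : (NR r * en r x) l i =
    if (l : ℕ) < i then ((((i : ℕ) - l - 1).factorial : ℚ)⁻¹) • x ^ ((i : ℕ) - l - 1) else 0 := by
  rw [Matrix.mul_apply]
  by_cases h : (l : ℕ) < i
  · have hi := i.2
    rw [Finset.sum_eq_single ⟨(l : ℕ) + 1, by omega⟩]
    · rw [NR_apply, if_pos rfl, one_mul, if_pos h]
      unfold en
      rw [if_pos (by change (l : ℕ) + 1 ≤ (i : ℕ); omega)]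
      have : (i : ℕ) - (l + 1) = (i : ℕ) - l - 1 := by omega
      simp only [this]
    · intro m _ hm
      rw [NR_apply, if_neg, zero_mul]
      intro h1
      apply hm
      apply Fin.ext
      simp only
      omega
    · intro h1
      exact absurd (Finset.mem_univ _) h1
  · rw [if_neg h]
    refine Finset.sum_eq_zero fun m _ => ?_
    rw [NR_apply]
    by_cases h1 : (l : ℕ) + 1 = m
    · have h3 : en r x m i = 0 := by
        unfold en
        rw [if_neg]
        intro h2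
        have : (m : ℕ) ≤ i := h2
        omega
      rw [h3, mul_zero]
    · rw [if_neg h1, zero_mul]

theorem hasDerivAt_en {r : ℕ} (x : ℝ) (l i : Fin r) :
    HasDerivAt (fun x => en r x l i) ((NR r * en r x) l i) x := by
  rw [NR_mul_en]
  by_cases h : l ≤ i
  · have h0 : (fun x : ℝ => en r x l i) = fun x : ℝ =>
        ((((i : ℕ) - (l : ℕ)).factorial : ℝ)⁻¹) * x ^ ((i : ℕ) - (l : ℕ)) := by
      funext y
      unfold en
      rw [if_pos h, Rat.smul_def]
      push_cast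
      ring
    rw [h0]
    have h1 := (hasDerivAt_pow ((i : ℕ) - (l : ℕ)) x).const_mul
      ((((i : ℕ) - (l : ℕ)).factorial : ℝ)⁻¹)
    have h' : (l : ℕ) ≤ i := h
    by_cases h3 : (l : ℕ) < i
    · rw [if_pos h3]
      obtain ⟨k, hk⟩ : ∃ k, (i : ℕ) - l = k + 1 := ⟨(i : ℕ) - l - 1, by omega⟩
      have hk' : (i : ℕ) - l - 1 = k := by omega
      rw [hk] at h1 ⊢
      rw [Nat.add_sub_cancel] at h1 ⊢
      have h4 : ((k.factorial : ℚ)⁻¹) • x ^ k =
          (((k + 1).factorial : ℝ)⁻¹) * (((k + 1 : ℕ) : ℝ) * x ^ k) := by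
        rw [Rat.smul_def, Nat.factorial_succ]
        push_cast
        have h5 : (k.factorial : ℝ) ≠ 0 := by positivity
        have h6 : (k : ℝ) + 1 ≠ 0 := by positivity
        field_simp
      rw [h4]
      exact h1
    · rw [if_neg h3]
      have h4 : (i : ℕ) - l = 0 := by omega
      rw [h4] at h1 ⊢
      rw [Nat.cast_zero, zero_mul, mul_zero] at h1
      exact h1
  · have h0 : (fun x : ℝ => en r x l i) = fun _ : ℝ => 0 := by
      funext y
      unfold en
      rw [if_neg h]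
    rw [h0, if_neg (fun h1 => h (Fin.le_def.mpr h1.le))]
    exact hasDerivAt_const x 0

theorem en_zero (r : ℕ) : en r (0 : ℝ) = 1 := by
  ext l i
  unfold en
  rcases lt_trichotomy l i with h | h | h
  · have h' : (l : ℕ) < i := h
    have h2 : (i : ℕ) - l ≠ 0 := by omega
    rw [if_pos h.le, zero_pow h2, smul_zero, Matrix.one_apply_ne h.ne]
  · subst h
    simp
  · rw [if_neg (not_le.2 h), Matrix.one_apply_ne h.ne']

/-- `J0` over the reals -/
def JR (r : ℕ) : Matrix (Fin r) (Fin r) ℝ := (J0 r).map (fun x => (x : ℝ))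

theorem JR_apply (r : ℕ) (a b : Fin r) :
    JR r a b = if (a : ℕ) + b + 1 = r then (-1) ^ (a : ℕ) else 0 := by
  have h : JR r a b = ((J0 r a b : ℚ) : ℝ) := rfl
  rw [h]
  unfold J0
  split_ifs
  · push_cast
    ring
  · simp

theorem NJ (r : ℕ) : (NR r)ᵀ * JR r + JR r * NR r = 0 := by
  ext a b
  rw [Matrix.add_apply, Matrix.mul_apply, Matrix.mul_apply, Matrix.zero_apply]
  have ha := a.2
  have hb := b.2
  by_cases h : (a : ℕ) + b = r
  · have ha0 : 0 < (a : ℕ) := by omega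
    have hb0 : 0 < (b : ℕ) := by omega
    rw [Finset.sum_eq_single ⟨(a : ℕ) - 1, by omega⟩, Finset.sum_eq_single ⟨(b : ℕ) - 1, by omega⟩]
    · rw [Matrix.transpose_apply, NR_apply, NR_apply, JR_apply, JR_apply]
      rw [if_pos (by simp only; omega), if_pos (by simp only; omega), if_pos (by simp only; omega),
        if_pos (by simp only; omega)]
      simp only
      obtain ⟨k, hk⟩ : ∃ k, (a : ℕ) = k + 1 := ⟨(a : ℕ) - 1, by omega⟩
      rw [hk, Nat.add_sub_cancel, pow_succ]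
      ring
    · intro m _ hm
      rw [NR_apply, if_neg, mul_zero]
      intro h1
      apply hm
      apply Fin.ext
      simp only
      omega
    · intro h1
      exact absurd (Finset.mem_univ _) h1
    · intro m _ hm
      rw [Matrix.transpose_apply, NR_apply, if_neg, zero_mul]
      intro h1
      apply hm
      apply Fin.ext
      simp only
      omega
    · intro h1
      exact absurd (Finset.mem_univ _) h1
  · have e1 : ∑ m, (NR r)ᵀ a m * JR r m b = 0 := by
      refine Finset.sum_eq_zero fun m _ => ?_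
      rw [Matrix.transpose_apply, NR_apply, JR_apply]
      by_cases h1 : (m : ℕ) + 1 = a
      · rw [if_pos h1, one_mul, if_neg (by omega)]
      · rw [if_neg h1, zero_mul]
    have e2 : ∑ m, JR r a m * NR r m b = 0 := by
      refine Finset.sum_eq_zero fun m _ => ?_
      rw [NR_apply, JR_apply]
      by_cases h1 : (m : ℕ) + 1 = b
      · rw [if_pos h1, mul_one, if_neg (by omega)]
      · rw [if_neg h1, mul_zero]
    rw [e1, e2, add_zero]

theorem hasDerivAt_mul {l m n : Type*} [Fintype m] (A : ℝ → Matrix l m ℝ) (B : ℝ → Matrix m n ℝ)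
    (A' : Matrix l m ℝ) (B' : Matrix m n ℝ) (x : ℝ)
    (hA : ∀ i j, HasDerivAt (fun x => A x i j) (A' i j) x)
    (hB : ∀ i j, HasDerivAt (fun x => B x i j) (B' i j) x) (i : l) (j : n) :
    HasDerivAt (fun x => (A x * B x) i j) ((A' * B x + A x * B') i j) x := by
  have h0 : (fun x => (A x * B x) i j) = fun x => ∑ k, A x i k * B x k j := by
    funext y
    rw [Matrix.mul_apply]
  have h1 : (A' * B x + A x * B') i j = ∑ k, (A' i k * B x k j + A x i k * B' k j) := by
    rw [Matrix.add_apply, Matrix.mul_apply, Matrix.mul_apply, Finset.sum_add_distrib]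
  rw [h0, h1]
  exact HasDerivAt.fun_sum fun k _ => (hA i k).mul (hB k j)

theorem en_pair (r : ℕ) (x : ℝ) : (en r x)ᵀ * JR r * en r x = JR r := by
  ext i j
  have hd : ∀ y : ℝ, HasDerivAt (fun x => ((en r x)ᵀ * JR r * en r x) i j) 0 y := by
    intro y
    have h1 : ∀ i j, HasDerivAt (fun x => ((en r x)ᵀ * JR r) i j)
        (((NR r * en r y)ᵀ * JR r) i j) y := by
      intro i j
      have := hasDerivAt_mul (fun x => (en r x)ᵀ) (fun _ => JR r) ((NR r * en r y)ᵀ) 0 y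
        (fun i j => hasDerivAt_en y j i) (fun i j => hasDerivAt_const y _) i j
      rw [Matrix.mul_zero, add_zero] at this
      exact this
    have h2 := hasDerivAt_mul (fun x => (en r x)ᵀ * JR r) (fun x => en r x)
      ((NR r * en r y)ᵀ * JR r) (NR r * en r y) y h1 (fun i j => hasDerivAt_en y i j) i j
    have h3 : (NR r * en r y)ᵀ * JR r * en r y + (en r y)ᵀ * JR r * (NR r * en r y) = 0 := by
      have h4 : (NR r * en r y)ᵀ * JR r * en r y + (en r y)ᵀ * JR r * (NR r * en r y) =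
          (en r y)ᵀ * ((NR r)ᵀ * JR r + JR r * NR r) * en r y := by
        rw [Matrix.transpose_mul]
        noncomm_ring
      rw [h4, NJ, Matrix.mul_zero, Matrix.zero_mul]
    rw [h3] at h2
    exact h2
  have h5 := is_const_of_deriv_eq_zero (f := fun x => ((en r x)ᵀ * JR r * en r x) i j)
    (fun y => (hd y).differentiableAt) (fun y => (hd y).deriv) x 0
  simp only [en_zero, Matrix.transpose_one, Matrix.one_mul, Matrix.mul_one] at h5
  exact h5

theorem JR_det (r : ℕ) : IsUnit (JR r).det := by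
  have h : (JR r) * (JR r)ᵀ = 1 := by
    ext a b
    rw [Matrix.mul_apply]
    have ha := a.2
    have hb := b.2
    rw [Finset.sum_eq_single ⟨r - 1 - a, by omega⟩]
    · rw [Matrix.transpose_apply, JR_apply, JR_apply, if_pos (by simp only; omega)]
      by_cases h : a = b
      · subst h
        rw [if_pos (by simp only; omega), Matrix.one_apply_eq, ← pow_add, ← two_mul, pow_mul]
        norm_num
      · rw [if_neg, mul_zero, Matrix.one_apply_ne h]
        intro h1
        apply h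
        apply Fin.ext
        simp only at h1
        omega
    · intro m _ hm
      rw [JR_apply, if_neg, zero_mul]
      intro h1
      apply hm
      apply Fin.ext
      simp only
      omega
    · intro h1
      exact absurd (Finset.mem_univ _) h1
  have h2 := congrArg Matrix.det h
  rw [Matrix.det_mul, Matrix.det_one] at h2
  exact IsUnit.of_mul_eq_one _ h2

theorem analyticAt_en (r : ℕ) (w : ℝ) (hw : 0 < w) (i j : Fin r) :
    AnalyticAt ℝ (fun x => en r (-Real.log x) i j) w := by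
  by_cases h : i ≤ j
  · have h0 : (fun x : ℝ => en r (-Real.log x) i j) = fun x : ℝ =>
        ((((j : ℕ) - (i : ℕ)).factorial : ℝ)⁻¹) * (-Real.log x) ^ ((j : ℕ) - (i : ℕ)) := by
      funext y
      unfold en
      rw [if_pos h, Rat.smul_def]
      push_cast
      ring
    rw [h0]
    exact analyticAt_const.mul ((analyticAt_log hw).neg.pow _)
  · have h0 : (fun x : ℝ => en r (-Real.log x) i j) = fun _ : ℝ => 0 := by
      funext y
      unfold en
      rw [if_neg h]
    rw [h0]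
    exact analyticAt_const

theorem ab_poly (p : ℚ[X]) (x : ℝ) : Ab (p : PowerSeries ℚ) x := by
  unfold Pool.Agent.Helper65MT100.Ab
  refine summable_of_ne_finset_zero (s := Finset.range (p.natDegree + 1)) fun k hk => ?_
  rw [Finset.mem_range] at hk
  rw [Polynomial.coeff_coe, Polynomial.coeff_eq_zero_of_natDegree_lt (by omega)]
  simp

theorem ev_poly (p : ℚ[X]) (x : ℝ) :
    ev (p : PowerSeries ℚ) x = (p.map (algebraMap ℚ ℝ)).eval x :=
  Pool.Agent.MT100.H47.eva2 p x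

theorem sub_ev {f g : PowerSeries ℚ} {x : ℝ} (hf : Ab f x) (hg : Ab g x) :
    ev (f - g) x = ev f x - ev g x := by
  have h : f - g = f + (-1 : ℚ) • g := by
    rw [neg_smul, one_smul, sub_eq_add_neg]
  rw [h, (e3 f ((-1 : ℚ) • g) x hf (ab_smul (-1) hg)).2.2.1, ev_smul]
  push_cast
  ring

theorem mul_ab {l m n : Type*} [Fintype m] (A : Matrix l m (PowerSeries ℚ))
    (B : Matrix m n (PowerSeries ℚ)) {x : ℝ} (hA : ∀ i j, Ab (A i j) x) (hB : ∀ i j, Ab (B i j) x)
    (i : l) (j : n) : Ab ((A * B) i j) x := by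
  rw [Matrix.mul_apply]
  exact (sum_ev e3 Finset.univ (fun k => A i k * B k j)
    (fun k _ => (e3 _ _ x (hA i k) (hB k j)).1)).1

theorem N_ev (r : ℕ) (l i : Fin r) (x : ℝ) :
    Ab ((Nsh r).map (fun x => (x : PowerSeries ℚ)) l i) x ∧
      ev ((Nsh r).map (fun x => (x : PowerSeries ℚ)) l i) x = NR r l i := by
  have h : (Nsh r).map (fun x => (x : PowerSeries ℚ)) l i = ((Nsh r l i : ℤ) : PowerSeries ℚ) :=
    rfl
  rw [h, NR_apply]
  unfold Nsh
  split_ifs
  · rw [Int.cast_one]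
    exact ⟨ab_one x, ev_one x⟩
  · rw [Int.cast_zero]
    exact ⟨ab_zero x, ev_zero x⟩

/-- the differential equation at a point -/
theorem ode_ev (r : ℕ) (lam : ℚ) (H : Matrix (Fin r) (Fin r) (PowerSeries ℚ))
    (A : Matrix (Fin r) (Fin r) ℚ[X])
    (hode : (((1 - C lam * X : ℚ[X]) : PowerSeries ℚ) * PowerSeries.X) • H.map dv =
      A.map (fun p => (p : PowerSeries ℚ)) * H -
        ((1 - C lam * X : ℚ[X]) : PowerSeries ℚ) •
          (H * (Nsh r).map (fun x => (x : PowerSeries ℚ)))) (z : ℝ)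
    (hH : ∀ i j, Ab (H i j) z) (hD : ∀ i j, Ab (dv (H i j)) z) :
    ((1 - (lam : ℝ) * z) * z) • (H.map dv).map (fun f => ev f z) =
      (A.map (fun p => (p.map (algebraMap ℚ ℝ)).eval z)) * H.map (fun f => ev f z) -
        (1 - (lam : ℝ) * z) • (H.map (fun f => ev f z) * NR r) := by
  have hq : ev ((1 - C lam * X : ℚ[X]) : PowerSeries ℚ) z = 1 - (lam : ℝ) * z := by
    rw [ev_poly]
    simp
  have hqX : (((1 - C lam * X : ℚ[X]) : PowerSeries ℚ) * PowerSeries.X) =
      (((1 - C lam * X) * X : ℚ[X]) : PowerSeries ℚ) := by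
    rw [Polynomial.coe_mul, Polynomial.coe_X]
  have hqX2 : ev (((1 - C lam * X : ℚ[X]) : PowerSeries ℚ) * PowerSeries.X) z =
      (1 - (lam : ℝ) * z) * z := by
    rw [hqX, ev_poly]
    simp
  have hA : ∀ i j, Ab ((A.map (fun p => (p : PowerSeries ℚ))) i j) z := fun i j => ab_poly _ _
  have h1 := mul_ev e3 (A.map (fun p => (p : PowerSeries ℚ))) H hA hH
  have h2 := mul_ev e3 H ((Nsh r).map (fun x => (x : PowerSeries ℚ))) hH
    (fun i j => (N_ev r i j z).1)
  have hN : ((Nsh r).map (fun x => (x : PowerSeries ℚ))).map (fun f => ev f z) = NR r := by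
    ext i j
    rw [Matrix.map_apply]
    exact (N_ev r i j z).2
  have hA2 : (A.map (fun p => (p : PowerSeries ℚ))).map (fun f => ev f z) =
      A.map (fun p => (p.map (algebraMap ℚ ℝ)).eval z) := by
    ext i j
    exact ev_poly _ _
  rw [hN] at h2
  rw [hA2] at h1
  ext i j
  have h3 := congrArg (fun M : Matrix (Fin r) (Fin r) (PowerSeries ℚ) => ev (M i j) z) hode
  simp only [Matrix.smul_apply, Matrix.sub_apply, smul_eq_mul] at h3
  have hab2 : Ab ((H * (Nsh r).map (fun x => (x : PowerSeries ℚ))) i j) z :=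
    mul_ab _ _ hH (fun i j => (N_ev r i j z).1) i j
  have e1 : H.map dv i j = dv (H i j) := rfl
  rw [e1, sub_ev (mul_ab _ _ hA hH i j) (e3 _ _ z (ab_poly _ z) hab2).1,
    (e3 _ _ z (ab_poly _ z) hab2).2.2.2, hq,
    (e3 _ _ z (by rw [hqX]; exact ab_poly _ z) (hD i j)).2.2.2, hqX2] at h3
  rw [Matrix.smul_apply, Matrix.sub_apply, Matrix.smul_apply, ← h1, ← h2]
  exact h3

/-- the generic statement -/
theorem ana_gen (r : ℕ) (lam : ℚ) (hl : 0 < lam) (H : Matrix (Fin r) (Fin r) (PowerSeries ℚ))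
    (A Jm : Matrix (Fin r) (Fin r) ℚ[X])
    (hode : (((1 - C lam * X : ℚ[X]) : PowerSeries ℚ) * PowerSeries.X) • H.map dv =
      A.map (fun p => (p : PowerSeries ℚ)) * H -
        ((1 - C lam * X : ℚ[X]) : PowerSeries ℚ) •
          (H * (Nsh r).map (fun x => (x : PowerSeries ℚ))))
    (hgr : ∀ a l, Gr lam (H a l))
    (hpai : Hᵀ * Jm.map (fun p => (p : PowerSeries ℚ)) * H =
      (J0 r).map (fun x => PowerSeries.C x)) (w : ℝ) (hw : (lam : ℝ) < w) :
    (∀ i j, AnalyticAt ℝ (fun x => (H.map (fun f => ev f x⁻¹) * en r (-Real.log x)) i j) w) ∧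
    IsUnit (H.map (fun f => ev f w⁻¹) * en r (-Real.log w)).det ∧
    (H.map (fun f => ev f w⁻¹) * en r (-Real.log w))ᵀ *
        (Jm.map (fun p => (p.map (algebraMap ℚ ℝ)).eval w⁻¹)) *
        (H.map (fun f => ev f w⁻¹) * en r (-Real.log w)) = JR r ∧
    (∀ i j, HasDerivAt (fun x => (H.map (fun f => ev f x⁻¹) * en r (-Real.log x)) i j)
      (-((w - lam)⁻¹ *
        ((A.map (fun p => (p.map (algebraMap ℚ ℝ)).eval w⁻¹)) *
          (H.map (fun f => ev f w⁻¹) * en r (-Real.log w))) i j)) w) := by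
  have hlam : (0 : ℝ) < (lam : ℝ) := by exact_mod_cast hl
  have hw0 : 0 < w := hlam.trans hw
  have hz : 0 < w⁻¹ := inv_pos.mpr hw0
  have h1 : (lam : ℝ) * w⁻¹ < 1 := by
    rw [← div_eq_mul_inv, div_lt_one hw0]
    exact hw
  have hH : ∀ i j, Ab (H i j) w⁻¹ := fun i j => ab_gr hl (hgr i j) hz h1
  have hD : ∀ i j, Ab (dv (H i j)) w⁻¹ := fun i j => ab_gr hl (gr_dv hl (hgr i j)) hz h1
  have hp : (H.map (fun f => ev f w⁻¹) * en r (-Real.log w))ᵀ *
        (Jm.map (fun p => (p.map (algebraMap ℚ ℝ)).eval w⁻¹)) *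
        (H.map (fun f => ev f w⁻¹) * en r (-Real.log w)) = JR r := by
    have hJ : ∀ i j, Ab ((Jm.map (fun p => (p : PowerSeries ℚ))) i j) w⁻¹ :=
      fun i j => ab_poly _ _
    have hJ2 : (Jm.map (fun p => (p : PowerSeries ℚ))).map (fun f => ev f w⁻¹) =
        Jm.map (fun p => (p.map (algebraMap ℚ ℝ)).eval w⁻¹) := by
      ext i j
      exact ev_poly _ _
    have hHt : ∀ i j, Ab (Hᵀ i j) w⁻¹ := fun i j => hH j i
    have h2 := congrArg (fun M : Matrix (Fin r) (Fin r) (PowerSeries ℚ) =>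
      M.map (fun f => ev f w⁻¹)) hpai
    beta_reduce at h2
    rw [mul_ev e3 _ _ (mul_ab _ _ hHt hJ) hH, mul_ev e3 _ _ hHt hJ, hJ2] at h2
    have h3 : ((J0 r).map (fun x => PowerSeries.C x)).map (fun f => ev f w⁻¹) = JR r := by
      ext i j
      have h4 : ev (((C (J0 r i j) : ℚ[X]) : PowerSeries ℚ)) w⁻¹ = ((J0 r i j : ℚ) : ℝ) := by
        rw [ev_poly]
        simp
      rw [Polynomial.coe_C] at h4
      exact h4
    have h5 : (Hᵀ).map (fun f => ev f w⁻¹) = (H.map (fun f => ev f w⁻¹))ᵀ := rfl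
    rw [h3, h5] at h2
    calc (H.map (fun f => ev f w⁻¹) * en r (-Real.log w))ᵀ *
        (Jm.map (fun p => (p.map (algebraMap ℚ ℝ)).eval w⁻¹)) *
        (H.map (fun f => ev f w⁻¹) * en r (-Real.log w))
        = (en r (-Real.log w))ᵀ * ((H.map (fun f => ev f w⁻¹))ᵀ *
          (Jm.map (fun p => (p.map (algebraMap ℚ ℝ)).eval w⁻¹)) * H.map (fun f => ev f w⁻¹)) *
          en r (-Real.log w) := by
          rw [Matrix.transpose_mul]
          simp only [Matrix.mul_assoc]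
      _ = JR r := by rw [h2, en_pair]
  refine ⟨fun i j => ?_, ?_, hp, fun i j => ?_⟩
  · have h0 : (fun x => (H.map (fun f => ev f x⁻¹) * en r (-Real.log x)) i j) =
        fun x => ∑ k, ev (H i k) x⁻¹ * en r (-Real.log x) k j := by
      funext y
      rw [Matrix.mul_apply]
      rfl
    rw [h0]
    refine Finset.analyticAt_fun_sum _ fun k _ => ?_
    have hρ : ∃ ρ : ℝ, w⁻¹ < ρ ∧ (lam : ℝ) * ρ < 1 := by
      have h2 : w⁻¹ < 1 / (lam : ℝ) := by
        rw [lt_div_iff₀ hlam]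
        linarith [mul_comm (lam : ℝ) w⁻¹]
      obtain ⟨ρ, h3, h4⟩ := exists_between h2
      refine ⟨ρ, h3, ?_⟩
      rw [lt_div_iff₀ hlam] at h4
      linarith [mul_comm (lam : ℝ) ρ]
    obtain ⟨ρ, hρ1, hρ2⟩ := hρ
    have hρ0 : 0 < ρ := hz.trans hρ1
    have h3 : AnalyticAt ℝ (ev (H i k)) w⁻¹ :=
      Pool.Agent.MT100.H47.eva4 (H i k) ρ hρ0.ne' (ab_gr hl (hgr i k) hρ0 hρ2) w⁻¹ (by
        rw [abs_of_pos hz, abs_of_pos hρ0]
        exact hρ1)
    have h4 : AnalyticAt ℝ (fun x : ℝ => x⁻¹) w := analyticAt_inv hw0.ne'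
    have h5 : AnalyticAt ℝ (fun x : ℝ => ev (H i k) x⁻¹) w := h3.fun_comp h4
    exact h5.mul (analyticAt_en r w hw0 k j)
  · have h2 := congrArg Matrix.det hp
    rw [Matrix.det_mul] at h2
    have h3 := JR_det r
    rw [← h2] at h3
    exact isUnit_of_mul_isUnit_right h3
  · set HH := H.map (fun f => ev f w⁻¹) with hHH
    set HD := (H.map dv).map (fun f => ev f w⁻¹) with hHD
    set E := en r (-Real.log w) with hE
    set Am := A.map (fun p => (p.map (algebraMap ℚ ℝ)).eval w⁻¹) with hAm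
    have h2 : ∀ i j, HasDerivAt (fun x => H.map (fun f => ev f x⁻¹) i j)
        ((-(w⁻¹ * w⁻¹) • HD) i j) w := by
      intro i j
      have h3 := (hasDerivAt_ev hl (hgr i j) hz h1).comp w (hasDerivAt_inv hw0.ne')
      have h4 : ev (dv (H i j)) w⁻¹ * (-(w ^ 2)⁻¹) = (-(w⁻¹ * w⁻¹) • HD) i j := by
        rw [Matrix.smul_apply, smul_eq_mul]
        have : HD i j = ev (dv (H i j)) w⁻¹ := rfl
        rw [this, ← mul_inv, ← pow_two]
        ring
      rw [← h4]
      exact h3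
    have h3 : ∀ i j, HasDerivAt (fun x => en r (-Real.log x) i j)
        ((-(w⁻¹) • (NR r * E)) i j) w := by
      intro i j
      have h4 := (hasDerivAt_en (-Real.log w) i j).comp w (Real.hasDerivAt_log hw0.ne').neg
      have h5 : (NR r * en r (-Real.log w)) i j * -w⁻¹ = (-(w⁻¹) • (NR r * E)) i j := by
        rw [Matrix.smul_apply, smul_eq_mul]
        ring
      rw [← h5]
      exact h4
    have h4 := hasDerivAt_mul (fun x => H.map (fun f => ev f x⁻¹)) (fun x => en r (-Real.log x))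
      _ _ w h2 h3 i j
    have hode' := ode_ev r lam H A hode w⁻¹ hH hD
    rw [← hHH, ← hHD, ← hAm] at hode'
    have hq : 1 - (lam : ℝ) * w⁻¹ ≠ 0 := by linarith
    have hwl : (w - lam)⁻¹ = w⁻¹ * (1 - (lam : ℝ) * w⁻¹)⁻¹ := by
      have : w - lam = w * (1 - (lam : ℝ) * w⁻¹) := by
        field_simp
      rw [this, mul_inv]
    have h5 : (w⁻¹ * w⁻¹) • HD = (w - lam)⁻¹ • (Am * HH) - w⁻¹ • (HH * NR r) := by
      have h6 : (w⁻¹ * w⁻¹) • HD = (w - lam)⁻¹ • (((1 - (lam : ℝ) * w⁻¹) * w⁻¹) • HD) := by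
        rw [smul_smul, hwl, mul_assoc w⁻¹, ← mul_assoc (1 - (lam : ℝ) * w⁻¹)⁻¹,
          inv_mul_cancel₀ hq, one_mul]
      have h9 : (w - lam)⁻¹ * (1 - (lam : ℝ) * w⁻¹) = w⁻¹ := by
        rw [hwl, mul_assoc, inv_mul_cancel₀ hq, mul_one]
      rw [h6, hode', smul_sub, smul_smul, h9]
    have h7 : (-(w⁻¹ * w⁻¹) • HD) * E + HH * (-(w⁻¹) • (NR r * E)) =
        -((w - lam)⁻¹ • (Am * (HH * E))) := by
      rw [neg_smul, h5, Matrix.mul_smul, neg_sub, Matrix.sub_mul, Matrix.smul_mul, Matrix.smul_mul,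
        neg_smul, Matrix.mul_assoc, Matrix.mul_assoc]
      abel
    have h8 : (-(w⁻¹ * w⁻¹) • HD) * en r (-Real.log w) +
        H.map (fun f => ev f w⁻¹) * (-(w⁻¹) • (NR r * E)) = -((w - lam)⁻¹ • (Am * (HH * E))) := h7
    rw [h8] at h4
    exact h4

/-- ANA for MT100B -/
theorem ana (hyp : HypStmt) (hgr : HgrStmt) (pai : PaiStmt) : AnaStmt := by
  intro D w hw
  obtain ⟨C, hC⟩ := hgr D
  exact ana_gen (ro D) D.lam D.lam_pos (Hyp D) (A0 D) (Jm D) (hyp D).2
    (fun a l => ⟨C, fun k => hC a l k⟩) (pai D).2 w hw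

/-- ANA for MT100 -/
theorem ana100 (hyp : Pool.Agent.MT100.HypStmt) (hgr : Pool.Agent.MT100.HgrStmt)
    (pai : Pool.Agent.MT100.PaiStmt) : Pool.Agent.MT100.AnaStmt := by
  intro D w hw
  obtain ⟨C, hC⟩ := hgr D
  exact ana_gen D.r D.lam D.lam_pos (Pool.Agent.MT100.Hyp D) (Pool.Agent.MT100.A0 D)
    (Pool.Agent.MT100.Jm D) (hyp D).2 (fun a l => ⟨C, fun k => hC a l k⟩) (pai D).2 w hw

end Pool.Agent.MT100B.H75

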